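import Pool.Agent.H82.LB.Targets

/-!
# Board `lmb_modules`, row BRM: monotonicity
-/

set_option autoImplicit false

open MeasureTheory Set
open Pool.Agent.H83.G
open Pool.Agent.H22.G4 (nv Ind)
open scoped ENNReal NNReal RealInnerProductSpace

namespace Pool.Agent.H14.LB

open Pool.Agent.H82.LB

theorem pf_BRM : T_BRM := by
  intro ι K h h' n n' I c u u' hn' hn hh hu hB V hV
  obtain ⟨k, hk, h1, h2⟩ := hB
    (fun j => if hj : j.1 < n' then V ⟨j.1, hj⟩ else V ⟨0, hn'⟩) (fun j => by
      by_cases hj : j.1 < n'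
      · simp only [dif_pos hj]
        exact hV _
      · simp only [dif_neg hj]
        exact hV _)
  refine ⟨k, hk, hh.trans (h1.trans (hu k hk)), fun j η hη => ?_⟩
  refine h2 ⟨j.1, lt_of_lt_of_le j.2 hn⟩ η ?_
  simp only [dif_pos j.2]
  exact hη

end Pool.Agent.H14.LB
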