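import Pool.Agent.H82.LB.Targets

/-!
# Board `lmb_modules`, row BRS: subadditivity
-/

set_option autoImplicit false

open MeasureTheory Set
open Pool.Agent.H83.G
open Pool.Agent.H22.G4 (nv Ind)
open scoped ENNReal NNReal RealInnerProductSpace

namespace Pool.Agent.H14.LB

open Pool.Agent.H82.LB

theorem pf_BRS : T_BRS := by
  intro ι Λ K h n I c Lab u v hh huv hB
  by_contra hcon
  have h1 : ∀ l : Lab, ∃ V : Fin n → Z 2, (∀ j, ‖V j‖ = 1) ∧ ∀ k ∈ I,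
      h / (2 * Lab.card) ≤ ‖v l.1 k‖ → ∃ j η, ph (nv η) (V j) = 0 ∧ ‖c k - η‖ < K⁻¹ := by
    intro l
    have h2 : ¬ Brm K n (h / (2 * Lab.card)) I c (v l.1) := fun h3 => hcon ⟨l.1, l.2, h3⟩
    unfold Brm at h2
    rw [not_forall] at h2
    obtain ⟨V, hV⟩ := h2
    rw [Classical.not_imp] at hV
    refine ⟨V, hV.1, fun k hk hk2 => ?_⟩
    by_contra h4
    apply hV.2
    refine ⟨k, hk, hk2, fun j η hη => ?_⟩
    by_contra h5
    exact h4 ⟨j, η, hη, not_le.1 h5⟩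
  choose V hV1 hV2 using h1
  obtain ⟨k, hk, hk1, hk2⟩ := hB
    (fun i => V (Lab.equivFin.symm (finProdFinEquiv.symm i).2) (finProdFinEquiv.symm i).1)
    (fun i => hV1 _ _)
  have h3 : ∀ l ∈ Lab, ‖v l k‖ < h / (2 * Lab.card) := by
    intro l hl
    by_contra h4
    obtain ⟨j, η, hη, hη2⟩ := hV2 ⟨l, hl⟩ k hk (not_lt.1 h4)
    have h5 := hk2 (finProdFinEquiv (j, Lab.equivFin ⟨l, hl⟩)) η (by
      simp only [Equiv.symm_apply_apply]
      exact hη)
    linarith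
  have h4 := huv k hk
  rcases Lab.eq_empty_or_nonempty with h0 | h0
  · rw [h0, Finset.sum_empty, sub_zero] at h4
    linarith
  · have hc : (0 : ℝ) < Lab.card := by exact_mod_cast Finset.card_pos.2 h0
    have h5 : ‖∑ l ∈ Lab, v l k‖ < h / 2 := by
      calc ‖∑ l ∈ Lab, v l k‖ ≤ ∑ l ∈ Lab, ‖v l k‖ := norm_sum_le _ _
        _ < ∑ _l ∈ Lab, h / (2 * Lab.card) := Finset.sum_lt_sum_of_nonempty h0 h3
        _ = h / 2 := by
            rw [Finset.sum_const, nsmul_eq_mul]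
            field_simp
    have h6 : ‖u k‖ ≤ ‖u k - ∑ l ∈ Lab, v l k‖ + ‖∑ l ∈ Lab, v l k‖ := by
      calc ‖u k‖ = ‖(u k - ∑ l ∈ Lab, v l k) + ∑ l ∈ Lab, v l k‖ := by rw [sub_add_cancel]
        _ ≤ _ := norm_add_le _ _
    linarith

end Pool.Agent.H14.LB
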